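import Mathlib

set_option autoImplicit false

namespace Pool.Agent.H.MP_4470cb_an

open Finset Real

noncomputable def ee (t : ℝ) : ℂ := Complex.exp (Complex.I * ((2 * π * t : ℝ) : ℂ))

theorem ee_add (s t : ℝ) : ee (s + t) = ee s * ee t := by
  rw [ee, ee, ee, ← Complex.exp_add]; congr 1; push_cast; ring

theorem ee_int (n : ℤ) : ee n = 1 := by
  rw [ee, ← Complex.exp_int_mul_two_pi_mul_I n]; congr 1; push_cast; ring

theorem ee_norm (t : ℝ) : ‖ee t‖ = 1 := by rw [ee, Complex.norm_exp_I_mul_ofReal]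

theorem ee_nat (c : ℕ) (t : ℝ) : ee (c * t) = ee t ^ c := by
  rw [ee, ee, ← Complex.exp_nat_mul]; congr 1; push_cast; ring

theorem ee_conj (t : ℝ) : (starRingEnd ℂ) (ee t) = ee (-t) := by
  rw [ee, ee, ← Complex.exp_conj, map_mul, Complex.conj_I, Complex.conj_ofReal]
  congr 1; push_cast; ring

theorem ee_lip (s t : ℝ) : ‖ee s - ee t‖ ≤ 2 * π * |s - t| := by
  have : ee s - ee t = ee t * (ee (s - t) - 1) := by rw [mul_sub, ← ee_add]; simp
  rw [this, norm_mul, ee_norm, one_mul]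
  refine Real.norm_exp_I_mul_ofReal_sub_one_le.trans_eq ?_
  rw [Real.norm_eq_abs, abs_mul, abs_of_pos two_pi_pos]

theorem geo {θ r : ℝ} (hr : 0 < r) (h : ∀ b : ℤ, r < |θ - b|) (N : ℕ) :
    ‖∑ c ∈ range N, ee (c * θ)‖ ≤ 1 / (2 * r) := by
  have e : ee θ = ee (θ - round θ) := by
    rw [sub_eq_add_neg, ee_add, ← Int.cast_neg, ee_int, mul_one]
  have h1 := h (round θ)
  have h2 := abs_sub_round θ
  have h3 : 4 * r ≤ ‖ee θ - 1‖ := by
    rw [e, ee, Complex.norm_exp_I_mul_ofReal_sub_one, Real.norm_eq_abs, abs_mul, abs_two]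
    have := Real.mul_abs_le_abs_sin (x := 2 * π * (θ - round θ) / 2) (by
      rw [abs_div, abs_mul, abs_of_pos two_pi_pos, abs_two]; nlinarith [pi_pos])
    rw [abs_div, abs_mul, abs_of_pos two_pi_pos, abs_two] at this
    have e2 : 2 / π * (2 * π * |θ - round θ| / 2) = 2 * |θ - round θ| := by field_simp
    linarith
  have h4 : ee θ ≠ 1 := fun h => by rw [h] at h3; simp at h3; linarith
  simp only [ee_nat]
  rw [geom_sum_eq h4, norm_div, div_le_div_iff₀ (by linarith) (by linarith)]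
  have := norm_sub_le (ee θ ^ N) 1
  rw [norm_pow, ee_norm, one_pow, norm_one] at this
  nlinarith

noncomputable def Y (ω : ℂ) (t : ℝ) : ℝ := (ω * ee t).re

theorem Y_abs {ω : ℂ} (h : ‖ω‖ = 1) (t : ℝ) : |Y ω t| ≤ 1 :=
  (Complex.abs_re_le_norm _).trans_eq (by rw [norm_mul, h, ee_norm, one_mul])

theorem Y_lip {ω : ℂ} (h : ‖ω‖ = 1) (s t : ℝ) : Y ω s ≤ Y ω t + 2 * π * |s - t| := by
  have := (Complex.re_le_norm (ω * (ee s - ee t))).trans_eq (by rw [norm_mul, h, one_mul])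
  rw [mul_sub, Complex.sub_re] at this
  linarith [ee_lip s t, show Y ω s = (ω * ee s).re from rfl, show Y ω t = (ω * ee t).re from rfl]

theorem Y_mul (ω : ℂ) (s t : ℝ) :
    ee s * (Y ω t : ℂ) = (ω * ee (s + t) + (starRingEnd ℂ) ω * ee (s - t)) / 2 := by
  rw [Y, Complex.re_eq_add_conj, map_mul, ee_conj, sub_eq_add_neg, ee_add, ee_add]; ring

section riesz

variable {ω : ℂ} (hω : ‖ω‖ = 1) {v r lam : ℝ} (hr : 0 < r) (h0 : 0 ≤ lam) (h1 : lam ≤ 1) (N : ℕ)
  {L : ℕ} (H : ∀ n : ℤ, n ≠ 0 → |n| ≤ 2 ^ L → ∀ b : ℤ, r < |n * v - b|)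

noncomputable def EE (ω : ℂ) (v lam : ℝ) (N : ℕ) (n : ℤ) (l : ℕ) : ℝ :=
  ‖∑ c ∈ range N, ee (c * (n * v)) *
    ((∏ j ∈ range l, (1 + lam * Y ω (2 ^ j * (c * v))) : ℝ) : ℂ)‖

include hω h0 in
theorem EE_succ (n : ℤ) (l : ℕ) : EE ω v lam N n (l + 1) ≤ EE ω v lam N n l +
    lam / 2 * (EE ω v lam N (n + 2 ^ l) l + EE ω v lam N (n - 2 ^ l) l) := by
  unfold EE
  generalize hP : (fun c : ℕ => ((∏ j ∈ range l, (1 + lam * Y ω (2 ^ j * (c * v))) : ℝ) : ℂ)) = P
  have hP' := fun c => congrFun hP c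
  have : ∀ c : ℕ, ee (c * (n * v)) *
      ((∏ j ∈ range (l + 1), (1 + lam * Y ω (2 ^ j * (c * v))) : ℝ) : ℂ) =
      ee (c * (n * v)) * P c + (lam / 2 : ℝ) * (ω * (ee (c * ((n + 2 ^ l : ℤ) * v)) * P c) +
        (starRingEnd ℂ) ω * (ee (c * ((n - 2 ^ l : ℤ) * v)) * P c)) := fun c => by
    have e := Y_mul ω (c * (n * v)) (2 ^ l * (c * v))
    rw [show (c : ℝ) * (n * v) + 2 ^ l * (c * v) = c * ((n + 2 ^ l : ℤ) * v) by push_cast; ring,
      show (c : ℝ) * (n * v) - 2 ^ l * (c * v) = c * ((n - 2 ^ l : ℤ) * v) by push_cast; ring] at e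
    rw [prod_range_succ, Complex.ofReal_mul, hP', Complex.ofReal_add, Complex.ofReal_mul,
      Complex.ofReal_div, Complex.ofReal_one, Complex.ofReal_ofNat]
    linear_combination (lam * P c) * e
  simp only [hP', this, sum_add_distrib, ← mul_sum]
  refine (norm_add_le _ _).trans (add_le_add le_rfl ?_)
  rw [norm_mul, Complex.norm_real, Real.norm_of_nonneg (by positivity)]
  refine mul_le_mul_of_nonneg_left ((norm_add_le _ _).trans_eq ?_) (by positivity)
  rw [norm_mul, norm_mul, Complex.norm_conj, hω, one_mul, one_mul]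

include hω hr h0 h1 H in
theorem EE_far : ∀ (l : ℕ) (n : ℤ), 2 ^ l ≤ |n| → |n| + 2 ^ l ≤ 2 ^ L →
    EE ω v lam N n l ≤ 2 ^ l / (2 * r)
  | 0, n, a, b => by
    simpa [EE] using geo hr (H n (by rintro rfl; simp at a) (by simp at b; omega)) N
  | l + 1, n, a, b => by
    have p : (0 : ℤ) < 2 ^ l := by positivity
    rw [pow_succ] at a b
    have e1 := EE_far l n (by omega) (by omega)
    have e2 := EE_far l (n + 2 ^ l) (by rcases abs_cases n with h | h <;> rw [le_abs] <;> omega)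
      (by have := abs_add_le n (2 ^ l); rw [abs_of_pos p] at this; omega)
    have e3 := EE_far l (n - 2 ^ l) (by rcases abs_cases n with h | h <;> rw [le_abs] <;> omega)
      (by have := abs_sub n (2 ^ l); rw [abs_of_pos p] at this; omega)
    refine (EE_succ hω h0 N n l).trans ?_
    have q : (0 : ℝ) ≤ 2 ^ l / (2 * r) := by positivity
    rw [pow_succ, mul_div_right_comm]
    nlinarith

include hω hr h0 h1 H in
theorem EE_zero : ∀ l ≤ L, EE ω v lam N 0 l ≤ N + 2 ^ l / (2 * r)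
  | 0, _ => by simp [EE, ee]; positivity
  | l + 1, a => by
    have p : (0 : ℤ) < 2 ^ l := by positivity
    have p2 : (2 : ℤ) ^ (l + 1) ≤ 2 ^ L := pow_le_pow_right₀ one_le_two a
    rw [pow_succ] at p2
    have e1 := EE_zero l (by omega)
    have e2 := EE_far hω hr h0 h1 N H l (0 + 2 ^ l) (by simp) (by simp; omega)
    have e3 := EE_far hω hr h0 h1 N H l (0 - 2 ^ l) (by simp) (by simp; omega)
    refine (EE_succ hω h0 N 0 l).trans ?_
    have q : (0 : ℝ) ≤ 2 ^ l / (2 * r) := by positivity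
    rw [pow_succ, mul_div_right_comm]
    nlinarith

end riesz

theorem exp_le {x : ℝ} (h : |x| ≤ 1 / 2) : exp (x - 2 * x ^ 2) ≤ 1 + x := by
  rw [abs_le] at h
  have h1 := add_one_le_exp (-(x - 2 * x ^ 2))
  have h2 : exp (x - 2 * x ^ 2) * exp (-(x - 2 * x ^ 2)) = 1 := by rw [← exp_add]; simp
  have h3 := exp_pos (x - 2 * x ^ 2)
  have h4 : 1 ≤ (1 + x) * (-(x - 2 * x ^ 2) + 1) := by nlinarith [mul_nonneg (sq_nonneg x) (show 0 ≤ 1 + 2 * x by linarith)]
  by_contra c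
  push Not at c
  have h5 : 0 < -(x - 2 * x ^ 2) + 1 := by nlinarith
  nlinarith

theorem ld {ω : ℂ} (hω : ‖ω‖ = 1) {v ε : ℝ} (h0 : 0 < ε) (h1 : ε ≤ 1) {N l : ℕ} (hN : 0 < N)
    (H : ∀ n : ℤ, n ≠ 0 → |n| ≤ 2 ^ l → ∀ b : ℤ, 2 ^ l / (N : ℝ) < |n * v - b|) :
    (((range N).filter fun c : ℕ => ε * l ≤ ∑ j ∈ range l, Y ω (2 ^ j * (c * v))).card : ℝ) ≤
      2 * N * exp (-(ε ^ 2 / 8 * l)) := by
  have hN' : (0 : ℝ) < N := by exact_mod_cast hN
  have e := EE_zero hω (lam := ε / 4) (by positivity) (by positivity) (by linarith) N H l le_rfl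
  have e2 : (2 : ℝ) ^ l / (2 * (2 ^ l / N)) = N / 2 := by field_simp
  have pos : ∀ t, exp (ε / 4 * Y ω t - ε ^ 2 / 8) ≤ 1 + ε / 4 * Y ω t := fun t => by
    have a := Y_abs hω t
    have b : Y ω t ^ 2 ≤ 1 := by rw [← sq_abs]; nlinarith [abs_nonneg (Y ω t)]
    refine le_trans (exp_le_exp.2 ?_) (exp_le (by rw [abs_mul, abs_of_pos (by positivity)]; nlinarith))
    nlinarith [sq_nonneg ε]
  simp only [EE, Int.cast_zero, zero_mul, mul_zero, show ee 0 = 1 by simp [ee], one_mul,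
    ← Complex.ofReal_sum, Complex.norm_real, e2] at e
  have e3 := (le_abs_self _).trans e
  rw [exp_neg, ← div_eq_mul_inv, le_div_iff₀ (exp_pos _), ← nsmul_eq_mul, ← sum_const]
  refine le_trans (sum_le_sum fun c hc => ?_) ((sum_le_sum_of_subset_of_nonneg (filter_subset _ _)
    fun c _ _ => prod_nonneg fun j _ => (exp_pos _).le.trans (pos _)).trans (by linarith))
  refine le_trans ?_ (prod_le_prod (fun j _ => (exp_pos _).le) fun j _ => pos _)
  rw [← exp_sum, exp_le_exp, sum_sub_distrib, ← mul_sum, sum_const, card_range, nsmul_eq_mul]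
  nlinarith [(mem_filter.1 hc).2]

open Classical in
noncomputable def Sp (lam : ℝ) (w : ℕ) : Finset (Fin w → ℤ) :=
  (Fintype.piFinset fun _ => Icc (-1) 1).filter fun σ =>
    ((univ.filter fun t => σ t ≠ 0).card : ℝ) ≤ lam * w

theorem sparse {h : ℝ} (h0 : 0 < h) : ∃ lam : ℝ, 0 < lam ∧ lam < 1 ∧
    ∀ w, ((Sp lam w).card : ℝ) ≤ exp (h * w) := by
  obtain ⟨s, s0, s1⟩ : ∃ s : ℝ, 0 < s ∧ exp (-s) ≤ h / 4 :=
    ⟨4 / h, by positivity, by
      rw [exp_neg, inv_le_comm₀ (exp_pos _) (by positivity), inv_div]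
      linarith [add_one_le_exp (4 / h)]⟩
  refine ⟨min (1 / 2) (h / (2 * s)), by positivity, (min_le_left _ _).trans_lt (by norm_num),
    fun w => ?_⟩
  have e := prod_univ_sum (fun _ : Fin w => Icc (-1 : ℤ) 1)
    fun _ z => if z ≠ 0 then exp (-s) else 1
  have e1 : ∑ z ∈ Icc (-1 : ℤ) 1, (if z ≠ 0 then exp (-s) else 1) = 1 + 2 * exp (-s) := by
    rw [show Icc (-1 : ℤ) 1 = {-1, 0, 1} by decide]
    simp
    ring
  have e2 : ((Sp (min (1 / 2) (h / (2 * s))) w).card : ℝ) * exp (-(h / 2 * w)) ≤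
      exp (h / 2 * w) := by
    rw [← nsmul_eq_mul, ← sum_const]
    refine le_trans (sum_le_sum fun σ hσ => ?_) ((sum_le_sum_of_subset_of_nonneg (filter_subset _ _)
      fun σ _ _ => prod_nonneg fun j _ => by positivity).trans (e.symm.trans_le ?_))
    · rw [prod_ite, prod_const_one, mul_one, prod_const, ← exp_nat_mul, exp_le_exp]
      have a := (mem_filter.1 hσ).2.trans (mul_le_mul_of_nonneg_right (min_le_right _ _)
        (Nat.cast_nonneg w))
      have b := mul_le_mul_of_nonneg_left a s0.le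
      rw [show s * (h / (2 * s) * w) = h / 2 * w by field_simp] at b
      linarith
    · rw [e1, prod_const, card_univ, Fintype.card_fin, mul_comm (h / 2), exp_nat_mul]
      exact pow_le_pow_left₀ (by positivity) (by linarith [add_one_le_exp (h / 2)]) _
  rw [exp_neg, ← div_eq_mul_inv, div_le_iff₀ (exp_pos _), ← exp_add] at e2
  exact e2.trans_eq (by congr 1; ring)

theorem net {δ : Type*} (F : Set ℝ) (D : Finset δ) (d : ℝ → δ) (bad : ℝ → Finset ℕ) {β : ℝ}
    (h0 : 0 ≤ β) (h1 : ∀ u ∈ F, d u ∈ D) (h2 : ∀ u ∈ F, ((bad u).card : ℝ) ≤ β) :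
    ∃ B : Finset ℕ, (B.card : ℝ) ≤ D.card * β ∧ ∀ u ∈ F, ∃ u' ∈ F, d u' = d u ∧ bad u' ⊆ B := by
  classical
  refine ⟨D.biUnion fun e => if h : ∃ u ∈ F, d u = e then bad h.choose else ∅, ?_, fun u hu => ?_⟩
  · refine le_trans (Nat.cast_le.2 card_biUnion_le) ?_
    rw [Nat.cast_sum, ← nsmul_eq_mul]
    refine sum_le_card_nsmul _ _ _ fun e _ => ?_
    split_ifs with h
    · exact h2 _ h.choose_spec.1
    · simpa using h0
  · have h : ∃ u' ∈ F, d u' = d u := ⟨u, hu, rfl⟩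
    exact ⟨_, h.choose_spec.1, h.choose_spec.2, fun c hc =>
      mem_biUnion.2 ⟨_, h1 u hu, by rwa [dif_pos h]⟩⟩

theorem fwd (g : ℕ → ℝ) (R : ℕ) (h1 : ∀ j, g j ≤ 1)
    (h : ∀ j, ∃ l, 1 ≤ l ∧ l ≤ R ∧ ∑ i ∈ range l, g (j + i) ≤ 0) (D : ℕ) :
    ∀ j, ∑ i ∈ range D, g (j + i) ≤ R := by
  induction D using Nat.strong_induction_on with
  | _ D ih =>
    intro j
    rcases le_or_gt D R with c | c
    · refine (sum_le_card_nsmul _ _ _ fun i _ => h1 _).trans ?_
      simpa using c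
    · obtain ⟨l, a, b, e⟩ := h j
      obtain ⟨D', rfl⟩ := Nat.exists_eq_add_of_le (b.trans c.le)
      have := ih D' (by omega) (j + l)
      simp only [add_assoc] at this
      rw [sum_range_add]
      linarith

theorem bwd (σ e : ℕ → ℝ) (h0 : ∀ t, 0 ≤ σ t) {lam : ℝ} (hl : 0 ≤ lam) (m : ℕ) (e1 : ∀ j, e j ≤ 1)
    (h : ∀ j, e j ≤ 0 ∨ ∃ w, 1 ≤ w ∧ w ≤ m ∧ lam * w ≤ ∑ t ∈ Ico (j + m - w) (j + m), σ t) (D : ℕ) :
    lam * ∑ j ∈ range D, e j ≤ ∑ t ∈ range (D + m - 1), σ t := by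
  induction D using Nat.strong_induction_on with
  | _ D ih =>
    rcases D with _ | D
    · simpa using sum_nonneg fun t _ => h0 t
    rcases h D with c | ⟨w, a, b, c⟩
    · rw [sum_range_succ, mul_add]
      have := sum_le_sum_of_subset_of_nonneg (f := σ)
        (range_subset_range.2 (show D + m - 1 ≤ D + 1 + m - 1 by omega)) fun t _ _ => h0 t
      nlinarith [ih D (by omega)]
    · have s1 := sum_range_add_sum_Ico σ (show D + m - w ≤ D + m by omega)
      have s2 := sum_range_add_sum_Ico e (show D + 1 - w ≤ D + 1 by omega)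
      have s3 : ∑ j ∈ Ico (D + 1 - w) (D + 1), e j ≤ w := by
        refine (sum_le_card_nsmul _ _ _ fun i _ => e1 _).trans ?_
        simp only [Nat.card_Ico, nsmul_eq_mul, mul_one, Nat.cast_le]
        omega
      have s4 : lam * ∑ j ∈ range (D + 1 - w), e j ≤ ∑ t ∈ range (D + m - w), σ t := by
        rcases le_or_gt w (D + 1) with d | d
        · exact (ih _ (by omega)).trans_eq (by congr 2; omega)
        · rw [show D + 1 - w = 0 by omega]
          simpa using sum_nonneg fun t _ => h0 t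
      rw [show D + 1 + m - 1 = D + m by omega, ← s1, ← s2, mul_add]
      nlinarith

end Pool.Agent.H.MP_4470cb_an
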