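import Pool.Agent.H.MP_4470cb_an.A

set_option autoImplicit false

namespace Pool.Agent.H.MP_4470cb_an

open Finset Real

noncomputable def nn (Q : ℕ) (u : ℝ) (t : ℕ) : ℤ := round (2 ^ t * Q * u)

noncomputable def ss (Q : ℕ) (u : ℝ) (t : ℕ) : ℤ := nn Q u (t + 1) - 2 * nn Q u t

theorem round_eq' {y : ℝ} {b : ℤ} (h : |y - b| < 1 / 2) : round y = b := by
  have h1 := abs_sub_round y
  have : |((round y - b : ℤ) : ℝ)| < 1 := by
    push_cast
    rw [abs_lt] at *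
    rw [abs_le] at h1
    constructor <;> linarith
  have : |round y - b| < 1 := by exact_mod_cast this
  have := Int.abs_lt_one_iff.1 this
  omega

theorem ss_mem (Q : ℕ) (u : ℝ) (t : ℕ) : ss Q u t ∈ Icc (-1 : ℤ) 1 := by
  have h1 := abs_sub_round (2 ^ t * Q * u)
  have h2 := abs_sub_round (2 ^ (t + 1) * Q * u)
  have : |((ss Q u t : ℤ) : ℝ)| < 2 := by
    simp only [ss, nn]
    push_cast
    rw [abs_le] at h1 h2
    rw [pow_succ] at h2 ⊢
    rw [abs_lt]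
    constructor <;> linarith
  have : |ss Q u t| < 2 := by exact_mod_cast this
  rw [abs_lt] at this
  rw [mem_Icc]
  omega

theorem ss_zero {Q : ℕ} {u : ℝ} {t : ℕ} {b : ℤ} (h : |2 ^ t * Q * u - b| < 1 / 4) :
    ss Q u t = 0 := by
  rw [ss, nn, nn, round_eq' (b := b) (h.trans (by norm_num)), round_eq' (b := 2 * b), sub_self]
  push_cast
  rw [abs_lt] at *
  rw [pow_succ]
  constructor <;> linarith

theorem nn_det {Q : ℕ} {u u' : ℝ} {t : ℕ} (h : nn Q u t = nn Q u' t) :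
    ∀ w, (∀ i < w, ss Q u (t + i) = ss Q u' (t + i)) → nn Q u (t + w) = nn Q u' (t + w)
  | 0, _ => h
  | w + 1, e => by
    have h1 := nn_det h w fun i hi => e i (by omega)
    have h2 := e w (by omega)
    simp only [ss] at h2
    rw [← add_assoc]
    omega

theorem nn_close {Q : ℕ} (hQ : 1 ≤ Q) {u u' : ℝ} {t : ℕ} (h : nn Q u t = nn Q u' t) :
    2 ^ t * |u - u'| ≤ 1 := by
  have h1 := abs_sub_round (2 ^ t * Q * u)
  have h2 := abs_sub_round (2 ^ t * Q * u')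
  rw [show round (2 ^ t * Q * u) = round (2 ^ t * Q * u') from h] at h1
  have h3 : |2 ^ t * Q * (u - u')| ≤ 1 := by
    rw [abs_le] at *
    constructor <;> linarith
  rw [abs_mul, abs_of_nonneg (by positivity)] at h3
  have : (1 : ℝ) ≤ Q := by exact_mod_cast hQ
  have p : (0 : ℝ) ≤ 2 ^ t * |u - u'| := by positivity
  nlinarith

theorem nn_mod {Q : ℕ} {u u' : ℝ} {t : ℕ} (h : 2 ^ t * Q * |u - u'| ≤ 1)
    (e : nn Q u t % 5 = nn Q u' t % 5) : nn Q u t = nn Q u' t := by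
  have h1 := abs_sub_round (2 ^ t * Q * u)
  have h2 := abs_sub_round (2 ^ t * Q * u')
  rw [← abs_of_nonneg (show (0 : ℝ) ≤ 2 ^ t * Q by positivity), ← abs_mul] at h
  have : |((nn Q u t - nn Q u' t : ℤ) : ℝ)| < 3 := by
    simp only [nn]
    push_cast
    rw [abs_le] at h h1 h2
    rw [abs_lt]
    constructor <;> linarith
  have : |nn Q u t - nn Q u' t| < 3 := by exact_mod_cast this
  rw [abs_lt] at this
  omega

def NS (m : ℕ) (u : ℝ) (s : ℕ) : Prop :=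
  ∀ q : ℤ, q ≠ 0 → |q| ≤ 2 ^ s → ∀ b : ℤ, (2 : ℝ) ^ s / 2 ^ m < |q * u - b|

theorem rat_close {m s : ℕ} {u u' : ℝ} (h : ¬ NS m u s) (h' : ¬ NS m u' s) (hm : 2 * s + 2 < m)
    (e : 2 ^ (2 * s + 1) * |u - u'| ≤ 1) : 2 ^ m * |u - u'| ≤ 2 ^ (s + 1) := by
  simp only [NS, not_forall, not_lt] at h h'
  obtain ⟨q, q0, q1, b, hb⟩ := h
  obtain ⟨q', q0', q1', b', hb'⟩ := h'
  have a1 : (1 : ℝ) ≤ |(q : ℝ)| := by exact_mod_cast Int.one_le_abs q0
  have a2 : (1 : ℝ) ≤ |(q' : ℝ)| := by exact_mod_cast Int.one_le_abs q0'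
  have a3 : |(q : ℝ)| ≤ 2 ^ s := by exact_mod_cast q1
  have a4 : |(q' : ℝ)| ≤ 2 ^ s := by exact_mod_cast q1'
  have p1 : (0 : ℝ) < 2 ^ s := by positivity
  have p2 : (0 : ℝ) < 2 ^ m := by positivity
  have p3 : (2 : ℝ) ^ (2 * s + 3) ≤ 2 ^ m := pow_le_pow_right₀ one_le_two hm
  rw [pow_add, pow_mul'] at e p3
  have k1 : |(q' : ℝ) * (q * u - b)| ≤ |(q' : ℝ)| * (2 ^ s / 2 ^ m) := by
    rw [abs_mul]; gcongr
  have k2 : |(q : ℝ) * (q' * u' - b')| ≤ |(q : ℝ)| * (2 ^ s / 2 ^ m) := by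
    rw [abs_mul]; gcongr
  have k3 : (2 : ℝ) ^ s * (2 ^ s / 2 ^ m) ≤ 1 / 8 := by
    rw [← mul_div_assoc, div_le_iff₀ p2]; nlinarith
  have k4 : |(q : ℝ) * q' * (u - u')| ≤ 1 / 2 := by
    rw [abs_mul, abs_mul]
    have : |(q : ℝ)| * |(q' : ℝ)| ≤ (2 ^ s) ^ 2 := by rw [sq]; gcongr
    nlinarith [abs_nonneg (u - u')]
  have k5 : (0 : ℝ) < 2 ^ s / 2 ^ m := by positivity
  have z : b * q' - b' * q = 0 := by
    have : |((b * q' - b' * q : ℤ) : ℝ)| < 1 := by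
      have k6 := mul_le_mul_of_nonneg_right a3 k5.le
      have k7 := mul_le_mul_of_nonneg_right a4 k5.le
      push_cast
      rw [abs_le] at k1 k2 k4
      rw [abs_lt]
      constructor <;> linarith
    exact Int.abs_lt_one_iff.1 (by exact_mod_cast this)
  have z' : (b : ℝ) * q' - b' * q = 0 := by exact_mod_cast z
  have k8 : |(q : ℝ)| * |(q' : ℝ)| * |u - u'| ≤ (|(q : ℝ)| + |(q' : ℝ)|) * (2 ^ s / 2 ^ m) := by
    rw [← abs_mul, ← abs_mul]
    rw [abs_le] at k1 k2 ⊢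
    constructor <;> linarith
  have k9 : |u - u'| ≤ 2 * (2 ^ s / 2 ^ m) := by
    refine le_of_mul_le_mul_left (k8.trans ?_) (by positivity : 0 < |(q : ℝ)| * |(q' : ℝ)|)
    rw [← mul_assoc]
    gcongr
    nlinarith
  rw [← mul_div_assoc, le_div_iff₀ p2] at k9
  rw [pow_succ]
  linarith

theorem sp_mem {Q : ℕ} {u lam : ℝ} {W t T : ℕ} {φ : ℕ → ℝ} (h0 : ∀ t, 0 ≤ φ t)
    (h1 : ∀ t, φ t < 1 → ∃ n : ℤ, |2 ^ t * Q * u - n| < 1 / 4)
    (h : ∑ i ∈ Ico t T, φ i ≤ lam * W) :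
    (fun i : Fin W => if t + i < T then ss Q u (t + i) else 0) ∈ Sp lam W := by
  classical
  refine mem_filter.2 ⟨Fintype.mem_piFinset.2 fun i => ?_, le_trans ?_ h⟩
  · split_ifs
    exacts [ss_mem _ _ _, by decide]
  · rw [← card_image_of_injective _ (f := fun i : Fin W => t + i) fun i j e =>
      Fin.ext (by simpa using e), card_eq_sum_ones, Nat.cast_sum]
    have : ∀ j ∈ image (fun i : Fin W => t + i) (univ.filter fun i : Fin W =>
        (if t + i < T then ss Q u (t + i) else 0) ≠ 0), j ∈ Ico t T ∧ 1 ≤ φ j := by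
      intro j hj
      obtain ⟨i, hi, rfl⟩ := mem_image.1 hj
      have := (mem_filter.1 hi).2
      split_ifs at this with c
      · refine ⟨mem_Ico.2 ⟨by omega, c⟩, not_lt.1 fun d => ?_⟩
        obtain ⟨n, hn⟩ := h1 _ d
        exact this (ss_zero hn)
      · exact (this rfl).elim
    exact (sum_le_sum fun j hj => by simpa using (this j hj).2).trans
      (sum_le_sum_of_subset_of_nonneg (fun j hj => (this j hj).1) fun j _ _ => h0 j)

theorem inj {Q : ℕ} (hQ : 1 ≤ Q) {u u' : ℝ} {m l L α W : ℕ} (hm : 4 * α + 2 * Q + 8 ≤ m)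
    (hW : 5 * l + L + 2 * α + Q + 3 ≤ W)
    (s : 4 * l < m → ¬ NS m u (l + 1 + α)) (s' : 4 * l < m → ¬ NS m u' (l + 1 + α))
    (e0 : nn Q u 0 = nn Q u' 0) (e1 : ∀ i < W, ss Q u i = ss Q u' i)
    (e2 : nn Q u (m - (l + 2 + α + Q)) % 5 = nn Q u' (m - (l + 2 + α + Q)) % 5)
    (e3 : ∀ i < W, m - (l + 2 + α + Q) + i < m + l + L →
      ss Q u (m - (l + 2 + α + Q) + i) = ss Q u' (m - (l + 2 + α + Q) + i)) :
    2 ^ (m + l + L) * |u - u'| ≤ 1 := by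
  refine nn_close hQ ?_
  have k : ∀ w ≤ W, nn Q u w = nn Q u' w := fun w hw => by
    simpa using nn_det e0 w fun i hi => by simpa using e1 i (by omega)
  rcases lt_or_ge (4 * l) m with c | c
  · have h1 := rat_close (s c) (s' c) (by omega) (nn_close hQ (k _ (by omega)))
    obtain ⟨t, ht⟩ := Nat.exists_eq_add_of_le (show l + 2 + α + Q ≤ m by omega)
    rw [show m - (l + 2 + α + Q) = t by omega] at e2 e3
    have h2 : (Q : ℝ) ≤ 2 ^ Q := by exact_mod_cast Nat.lt_two_pow_self.le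
    have h3 := nn_mod (by
      rw [show m = (l + 1 + α + 1) + (t + Q) by omega, pow_add, mul_assoc,
        mul_le_iff_le_one_right (by positivity), pow_add] at h1
      exact le_trans (by gcongr) h1) e2
    have := nn_det h3 (m + l + L - t) fun i hi => e3 i (by omega) (by omega)
    rwa [show t + (m + l + L - t) = m + l + L by omega] at this
  · exact k _ (by omega)

theorem core {a : ℤ} (ha : a ≠ 0) {ω : ℂ} (hω : ‖ω‖ = 1) {ε : ℝ} (h0 : 0 < ε) (h1 : ε ≤ 1)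
    {α Q l0 : ℕ} (hα : |a| ≤ 2 ^ α) (hQ : 1 ≤ Q) (hl : 1 ≤ l0) (Bz : Finset ℤ)
    (hB : ∀ b ∈ Bz, ∀ q : ℤ, q ≠ 0 → |q| ≤ 2 ^ (l0 + α) → ¬ (Q : ℤ) ∣ q * b) :
    ∃ ρ lam : ℝ, 0 < ρ ∧ Q * ρ ≤ 1 / 4 ∧ 0 < lam ∧ lam < 1 ∧ ∃ m0 M : ℕ, ∀ m ≥ m0,
      ∃ B : Finset ℕ, (B.card : ℝ) ≤
        10 / (1 - exp (-(ε ^ 2 / 16))) * (Bz.card * exp (-(ε ^ 2 / 16 * l0))) * 2 ^ m ∧
      ∀ c < 2 ^ m, c ∉ B → ∀ (u : ℝ) (φ : ℕ → ℝ), (∀ t, 0 ≤ φ t) →
        (∀ t, φ t < 1 → ∃ n : ℤ, |2 ^ t * Q * u - n| < 1 / 4) → (∃ b ∈ Bz, |u - b / Q| < ρ) →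
        (∀ w ≤ M * m, ∑ i ∈ range w, φ i ≤ lam * w) →
        (∀ w ≤ M * m, ∑ i ∈ range w, φ (m + i) ≤ lam * w) →
        (∀ w ≤ m, ∑ i ∈ Ico (m - w) m, φ i ≤ lam * w) →
        ∃ l, 1 ≤ l ∧ l ≤ M * m ∧ ∑ j ∈ range l, Y ω (2 ^ j * (c * (a * u))) ≤ 2 * ε * l := by
  classical
  have hQ' : (1 : ℝ) ≤ Q := by exact_mod_cast hQ
  obtain ⟨L, hL⟩ := pow_unbounded_of_one_lt (2 * π * 2 ^ α / ε) (one_lt_two (α := ℝ))
  rw [div_lt_iff₀ h0] at hL
  obtain ⟨M, hM⟩ : ∃ M, M = 5 + L + 2 * α + Q + 3 := ⟨_, rfl⟩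
  have hM' : (0 : ℝ) < M := by rw [hM]; positivity
  obtain ⟨lam, l1, l2, l3⟩ := sparse (h := ε ^ 2 / 32 / M) (by positivity)
  have hR : (1 : ℝ) ≤ 2 ^ (l0 + α) := one_le_pow₀ one_le_two
  refine ⟨1 / (4 * Q * 2 ^ (l0 + α)), lam, by positivity, by
    rw [mul_one_div, div_le_div_iff₀ (by positivity) (by positivity)]; nlinarith, l1, l2,
    l0 + 4 * α + 2 * Q + 8, M, fun m hm => ?_⟩
  have W1 : ∀ l, 1 ≤ l → 5 * l + L + 2 * α + Q + 3 ≤ M * l := fun l h => by rw [hM]; nlinarith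
  let d : (l : ℕ) → ℝ → ℤ × (Fin (M * l) → ℤ) × ℤ × (Fin (M * l) → ℤ) := fun l u =>
    (nn Q u 0, fun i => if 0 + i < M * l then ss Q u (0 + i) else 0,
      nn Q u (m - (l + 2 + α + Q)) % 5, fun i =>
      if m - (l + 2 + α + Q) + i < m + l + L then ss Q u (m - (l + 2 + α + Q) + i) else 0)
  let D := fun l => Bz ×ˢ Sp lam (M * l) ×ˢ Ico (0 : ℤ) 5 ×ˢ Sp lam (M * l)
  have := fun l => net {u | d l u ∈ D l ∧ NS m u (l + α) ∧ (4 * l < m → ¬ NS m u (l + 1 + α))}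
    (D l) (d l) (fun u => (range (2 ^ m)).filter fun c : ℕ =>
      ε * l ≤ ∑ j ∈ range l, Y ω (2 ^ j * (c * (a * u))))
    (β := 2 * (2 ^ m : ℕ) * exp (-(ε ^ 2 / 8 * l))) (by positivity) (fun u hu => hu.1)
    fun u hu => ld hω h0 h1 (by positivity) fun n n0 n1 b => by
      have := hu.2.1 (n * a) (mul_ne_zero n0 ha) (by rw [abs_mul, pow_add]; gcongr) b
      push_cast at this ⊢
      rw [← mul_assoc]
      exact lt_of_le_of_lt (by gcongr; exacts [one_le_two, Nat.le_add_right _ _]) this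
  choose B B1 B2 using this
  refine ⟨(Ico l0 (m + 1)).biUnion B, ?_, fun c c1 c2 u φ p0 p1 ⟨b, b1, b2⟩ r1 r2 r3 => ?_⟩
  · have x0 := exp_pos (-(ε ^ 2 / 16))
    have x1 : exp (-(ε ^ 2 / 16)) < 1 := exp_lt_one_iff.2 (neg_neg_of_pos (by positivity))
    have g := geom_sum_Ico_le_of_lt_one (m := l0) (n := m + 1) x0.le x1
    refine le_trans (Nat.cast_le.2 card_biUnion_le) ?_
    rw [Nat.cast_sum]
    refine (sum_le_sum (g := fun l => 10 * Bz.card * 2 ^ m * exp (-(ε ^ 2 / 16)) ^ l)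
      fun l _ => (B1 l).trans ?_).trans ?_
    · simp only [D, card_product, Int.card_Ico]
      push_cast
      have e1 := l3 (M * l)
      rw [show ε ^ 2 / 32 / M * (M * l : ℕ) = ε ^ 2 / 32 * l by push_cast; field_simp] at e1
      have e2 : exp (-(ε ^ 2 / 16)) ^ l =
          exp (ε ^ 2 / 32 * l) * exp (ε ^ 2 / 32 * l) * exp (-(ε ^ 2 / 8 * l)) := by
        rw [← exp_nat_mul, ← exp_add, ← exp_add]; congr 1; ring
      rw [e2]
      calc _ ≤ (Bz.card : ℝ) * (exp (ε ^ 2 / 32 * l) * (5 * exp (ε ^ 2 / 32 * l))) *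
          (2 * 2 ^ m * exp (-(ε ^ 2 / 8 * l))) := by gcongr
        _ = _ := by ring
    · rw [← mul_sum]
      refine (mul_le_mul_of_nonneg_left g (by positivity)).trans_eq ?_
      rw [← exp_nat_mul, show (l0 : ℝ) * -(ε ^ 2 / 16) = -(ε ^ 2 / 16 * l0) by ring]
      ring
  have n0 : NS m u (l0 + α) := fun q q0 q1 b' => by
    have a1 : (1 : ℝ) ≤ |((q * b - Q * b' : ℤ) : ℝ)| := by
      exact_mod_cast Int.one_le_abs fun e => hB b b1 q q0 q1 ⟨b', by omega⟩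
    have a2 : |(q : ℝ)| ≤ 2 ^ (l0 + α) := by exact_mod_cast q1
    have a3 : |(Q : ℝ) * (q * (u - b / Q))| ≤ 1 / 4 := by
      rw [abs_mul, abs_mul, Nat.abs_cast]
      calc _ ≤ (Q : ℝ) * (2 ^ (l0 + α) * (1 / (4 * Q * 2 ^ (l0 + α)))) := by gcongr
        _ = _ := by field_simp
    have a4 : ((q * b - Q * b' : ℤ) : ℝ) = Q * (q * u - b') - Q * (q * (u - b / Q)) := by
      push_cast; field_simp; ring
    have a5 := abs_sub ((Q : ℝ) * (q * u - b')) (Q * (q * (u - b / Q)))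
    rw [← a4, abs_mul, Nat.abs_cast] at a5
    have a6 : (2 : ℝ) ^ (l0 + α + Q + 1) ≤ 2 ^ m := pow_le_pow_right₀ one_le_two (by omega)
    have a7 : (Q : ℝ) ≤ 2 ^ Q := by exact_mod_cast Nat.lt_two_pow_self.le
    rw [pow_succ, pow_add] at a6
    refine lt_of_mul_lt_mul_left ?_ (Nat.cast_nonneg Q)
    have a8 : (Q : ℝ) * (2 ^ (l0 + α) / 2 ^ m) ≤ 1 / 2 := by
      rw [← mul_div_assoc, div_le_iff₀ (by positivity)]; nlinarith
    linarith
  have ex : ∃ l, l0 ≤ l ∧ (4 * l < m → ¬ NS m u (l + 1 + α)) := ⟨m, by omega, by omega⟩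
  obtain ⟨l, ⟨k1, k2⟩, k3⟩ : ∃ l, (l0 ≤ l ∧ (4 * l < m → ¬ NS m u (l + 1 + α))) ∧
      ∀ l' < l, ¬ (l0 ≤ l' ∧ (4 * l' < m → ¬ NS m u (l' + 1 + α))) :=
    ⟨_, Nat.find_spec ex, fun _ h => Nat.find_min ex h⟩
  have k4 : l ≤ m := not_lt.1 fun h => k3 m h ⟨by omega, by omega⟩
  have k5 : NS m u (l + α) := by
    rcases k1.eq_or_lt with rfl | h
    · exact n0
    · obtain ⟨l, rfl⟩ : ∃ l', l = l' + 1 := ⟨l - 1, by omega⟩
      by_contra e
      exact k3 l (by omega) ⟨by omega, fun _ => e⟩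
  have W2 := W1 l (by omega)
  have W3 : M * l ≤ M * m := Nat.mul_le_mul_left _ k4
  have k6 : d l u ∈ D l := by
    refine mem_product.2 ⟨?_, mem_product.2 ⟨sp_mem p0 p1 ?_, mem_product.2
      ⟨mem_Ico.2 ⟨by dsimp only [d]; omega, by dsimp only [d]; omega⟩, sp_mem p0 p1 ?_⟩⟩⟩
    · rwa [show (d l u).1 = b from round_eq' (by
        rw [show (2 : ℝ) ^ 0 * Q * u - b = Q * (u - b / Q) by field_simp, abs_mul, Nat.abs_cast]
        calc _ ≤ (Q : ℝ) * (1 / (4 * Q * 2 ^ (l0 + α))) := by gcongr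
          _ < _ := by
            rw [mul_one_div, div_lt_div_iff₀ (by positivity) (by positivity)]; nlinarith)]
    · rw [← range_eq_Ico]; exact r1 _ W3
    · have e1 := r3 (m - (m - (l + 2 + α + Q))) (by omega)
      have e2 := r2 (l + L) (by omega)
      rw [show m - (m - (m - (l + 2 + α + Q))) = m - (l + 2 + α + Q) by omega] at e1
      rw [← sum_Ico_consecutive _ (Nat.sub_le m _) (show m ≤ m + l + L by omega),
        sum_Ico_eq_sum_range _ m, show m + l + L - m = l + L by omega]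
      refine (add_le_add e1 e2).trans ?_
      rw [← mul_add, ← Nat.cast_add]
      exact mul_le_mul_of_nonneg_left (Nat.cast_le.2 (by omega)) l1.le
  obtain ⟨u', ⟨-, -, v1⟩, v2, v3⟩ := B2 l u ⟨k6, k5, k2⟩
  simp only [d, Prod.mk.injEq] at v2
  have cl := inj hQ (L := L) (by omega) W2 v1 k2 v2.1 (fun i hi => by
    simpa [hi] using congrFun v2.2.1 ⟨i, hi⟩) v2.2.2.1 fun i hi h => by
    simpa [h] using congrFun v2.2.2.2 ⟨i, hi⟩
  have lt : ∑ j ∈ range l, Y ω (2 ^ j * (c * (a * u'))) < ε * l := not_le.1 fun h =>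
    c2 (mem_biUnion.2 ⟨l, mem_Ico.2 ⟨k1, by omega⟩, v3 (mem_filter.2 ⟨mem_range.2 c1, h⟩)⟩)
  refine ⟨l, by omega, by omega, (sum_le_sum (g := fun j => Y ω (2 ^ j * (c * (a * u'))) + ε)
    fun j hj => (Y_lip hω _ (2 ^ j * (c * (a * u')))).trans (add_le_add le_rfl ?_)).trans ?_⟩
  · rw [← mul_sub, ← mul_sub, ← mul_sub, abs_mul, abs_mul, abs_mul, abs_sub_comm, Nat.abs_cast,
      abs_of_pos (by positivity : (0 : ℝ) < 2 ^ j)]
    have a1 : |(a : ℝ)| ≤ 2 ^ α := by exact_mod_cast hα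
    have a2 : (c : ℝ) ≤ 2 ^ m := by exact_mod_cast c1.le
    have a3 : (2 : ℝ) ^ j ≤ 2 ^ l := pow_le_pow_right₀ one_le_two (mem_range.1 hj).le
    calc _ ≤ 2 * π * (2 ^ l * (2 ^ m * (2 ^ α * |u' - u|))) := by gcongr
      _ = 2 * π * 2 ^ α * (2 ^ (m + l) * |u' - u|) := by ring
      _ ≤ 2 ^ L * ε * (2 ^ (m + l) * |u' - u|) := by gcongr
      _ = ε * (2 ^ (m + l + L) * |u' - u|) := by ring
      _ ≤ _ := mul_le_of_le_one_right h0.le cl
  · rw [sum_add_distrib, sum_const, card_range, nsmul_eq_mul]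
    linarith

end Pool.Agent.H.MP_4470cb_an
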