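import Pool.Agent.H.MP_4470cb_an.B

set_option autoImplicit false

namespace Pool.Agent.H.MP_4470cb_an

open Finset Real MeasureTheory

theorem int {E : Type} [NormedAddCommGroup E] (μ : Measure UnitAddCircle) [IsFiniteMeasure μ]
    {f : UnitAddCircle → E} (h : Continuous f) : Integrable f μ :=
  h.integrable_of_hasCompactSupport (HasCompactSupport.of_compactSpace f)

theorem inv_int {μ : Measure UnitAddCircle} (h : μ.map (fun x => 2 • x) = μ)
    (i : ℕ) : ∀ {f : UnitAddCircle → ℝ}, Continuous f → ∫ x, f (2 ^ i • x) ∂μ = ∫ x, f x ∂μ := by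
  induction i with
  | zero => simp
  | succ i ih =>
    intro f hf
    simp only [pow_succ', mul_smul]
    rw [ih (f := fun x => f (2 • x)) (by fun_prop)]
    conv_rhs => rw [← h]
    rw [integral_map (by fun_prop) hf.aestronglyMeasurable]

theorem main {a : ℤ} (ha : a ≠ 0) {ω : ℂ} (hω : ‖ω‖ = 1) {ε : ℝ} (h0 : 0 < ε) (h1 : ε ≤ 1)
    {α k l0 : ℕ} (hα : |a| ≤ 2 ^ α) (hk : 1 ≤ k) (hl : 1 ≤ l0) {z : UnitAddCircle}
    (hz : 2 ^ k • z = z) (hq : ∀ q : ℤ, q ≠ 0 → |q| ≤ 2 ^ (l0 + α) → q • z ≠ 0) :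
    ∃ φ : C(UnitAddCircle, ℝ), (∀ j < k, φ (2 ^ j • z) = 0) ∧ ∃ δ > 0, ∃ m0 : ℕ, ∀ m ≥ m0,
      ∃ B : Finset ℕ, (B.card : ℝ) ≤
        10 / (1 - exp (-(ε ^ 2 / 16))) * (k * exp (-(ε ^ 2 / 16 * l0))) * 2 ^ m ∧
      ∀ c < 2 ^ m, c ∉ B → ∀ μ : Measure UnitAddCircle, IsProbabilityMeasure μ →
        μ.map (fun x => 2 • x) = μ → ∫ x, φ x ∂μ < δ →
        ∫ x, (ω * fourier (a * c) x).re ∂μ ≤ 3 * ε := by
  classical
  obtain ⟨Q, hQ⟩ : ∃ Q, 2 ^ k = Q + 1 := ⟨2 ^ k - 1, by have := Nat.two_pow_pos k; omega⟩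
  have Q1 : 1 ≤ Q := by have := Nat.one_lt_two_pow (show k ≠ 0 by omega); omega
  have Q2 : (0 : ℝ) < Q := by exact_mod_cast Q1
  have : ∀ j : ℕ, ∃ b : ℤ, ((b / Q : ℝ) : UnitAddCircle) = 2 ^ j • z := fun j => by
    obtain ⟨y, hy⟩ := QuotientAddGroup.mk_surjective (2 ^ j • z)
    have e : Q • z = 0 := by rwa [hQ, add_smul, one_smul, add_eq_right] at hz
    obtain ⟨b, hb⟩ := (AddCircle.coe_eq_zero_iff (p := (1 : ℝ)) (x := Q • y)).1 (by
      rw [AddCircle.coe_nsmul, hy, smul_comm, e, smul_zero])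
    refine ⟨b, hy ▸ congrArg _ ?_⟩
    rw [div_eq_iff Q2.ne']
    simpa [mul_comm] using hb
  choose b hb using this
  obtain ⟨ρ, lam, r0, r1, l1, l2, m0, M, hM⟩ := core ha hω h0 h1 hα Q1 hl ((range k).image b) (by
    intro _ hb' q q0 q1 ⟨n, hn⟩
    obtain ⟨j, hj, rfl⟩ := mem_image.1 hb'
    obtain ⟨i, rfl⟩ := Nat.exists_eq_add_of_le (mem_range.1 hj).le
    refine hq q q0 q1 ?_
    rw [← hz, pow_add, mul_comm, mul_smul, smul_comm, ← hb, ← AddCircle.coe_zsmul,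
      (AddCircle.coe_eq_zero_iff (p := (1 : ℝ))).2 ⟨n, ?_⟩, smul_zero]
    rw [zsmul_eq_mul, zsmul_eq_mul, ← mul_div_assoc, eq_div_iff Q2.ne']
    exact_mod_cast (by rw [hn]; ring))
  let P : Set UnitAddCircle := (fun j => 2 ^ j • z) '' Set.Iio k
  let φ : C(UnitAddCircle, ℝ) :=
    ⟨fun x => Metric.infDist x P / ρ, (Metric.continuous_infDist_pt P).div_const _⟩
  have p0 : ∀ x, 0 ≤ φ x := fun x => div_nonneg Metric.infDist_nonneg r0.le
  have p1 : ∀ y : ℝ, φ y < 1 → ∃ n : ℤ, ∃ b' ∈ (range k).image b, |y - n - b' / Q| < ρ :=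
    fun y h => by
      obtain ⟨_, ⟨j, hj, rfl⟩, e⟩ := (Metric.infDist_lt_iff (s := P) ⟨_, 0, hk, rfl⟩).1
        ((div_lt_one r0).1 h)
      simp only [← hb, dist_eq_norm, ← AddCircle.coe_sub, UnitAddCircle.norm_eq] at e
      exact ⟨_, _, mem_image_of_mem _ (mem_range.2 hj), by rwa [sub_right_comm]⟩
  refine ⟨φ, fun j hj => by simp [φ, Metric.infDist_zero_of_mem (s := P) ⟨j, hj, rfl⟩],
    lam * ε / 4, by positivity, m0, fun m hm => ?_⟩
  obtain ⟨B, B1, B2⟩ := hM m hm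
  have x1 : exp (-(ε ^ 2 / 16)) < 1 := exp_lt_one_iff.2 (neg_neg_of_pos (by positivity))
  refine ⟨B, B1.trans ?_, fun c c1 c2 μ _ hμ hφ => ?_⟩
  · have := sub_pos.2 x1
    gcongr
    exact card_image_le.trans_eq (card_range k)
  generalize hF : (fun x : UnitAddCircle => (ω * fourier (a * c) x).re) = F
  have Fc : Continuous F := by rw [← hF]; fun_prop
  have Fy : ∀ y : ℝ, F y = Y ω (c * (a * y)) := fun y => by
    rw [← hF, Y, ee]
    simp only [fourier_coe_apply]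
    congr 3
    push_cast
    ring
  have F1 : ∀ x, F x ≤ 1 := fun x => by
    obtain ⟨y, rfl⟩ := QuotientAddGroup.mk_surjective x
    exact (Fy y).trans_le (le_of_abs_le (Y_abs hω _))
  have key : ∀ x : UnitAddCircle, (∀ w ≤ M * m + 1, ∑ i ∈ range w, φ (2 ^ i • x) ≤ lam * w) →
      (∀ w ≤ M * m + 1, ∑ i ∈ range w, φ (2 ^ (m + i) • x) ≤ lam * w) →
      (∀ w ≤ m, ∑ i ∈ Ico (m - w) m, φ (2 ^ i • x) ≤ lam * w) →
      ∃ l, 1 ≤ l ∧ l ≤ M * m ∧ ∑ j ∈ range l, F (2 ^ j • x) ≤ 2 * ε * l := by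
    intro x s1 s2 s3
    obtain ⟨y, rfl⟩ := QuotientAddGroup.mk_surjective x
    obtain ⟨n, b', b1, b2⟩ := p1 y (lt_of_le_of_lt (by simpa using s1 1 (by omega)) l2)
    have e : ∀ j : ℕ, 2 ^ j • (y : UnitAddCircle) = ((2 ^ j * (y - n) : ℝ) : UnitAddCircle) :=
      fun j => by
        rw [show (y : UnitAddCircle) = (y - n : ℝ) by
          rw [AddCircle.coe_sub, (AddCircle.coe_eq_zero_iff (p := (1 : ℝ)) (x := n)).2 ⟨n, by simp⟩,
            sub_zero], ← AddCircle.coe_nsmul]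
        simp
    obtain ⟨l, a1, a2, a3⟩ := B2 c c1 c2 (y - n) (fun i => φ (2 ^ i • (y : UnitAddCircle)))
      (fun _ => p0 _) (fun t h => by
        rw [e] at h
        obtain ⟨n', b'', -, h⟩ := p1 _ h
        refine ⟨Q * n' + b'', lt_of_lt_of_le ?_ r1⟩
        rw [show (2 : ℝ) ^ t * Q * (y - n) - (Q * n' + b'' : ℤ) =
          Q * (2 ^ t * (y - n) - n' - b'' / Q) by push_cast; field_simp; ring, abs_mul, Nat.abs_cast]
        gcongr) ⟨b', b1, b2⟩ (fun w h => s1 w (by omega)) (fun w h => s2 w (by omega)) s3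
    refine ⟨l, a1, a2, le_trans (le_of_eq (sum_congr rfl fun j _ => ?_)) a3⟩
    rw [e, Fy]
    congr 1
    ring
  have pt : ∀ (D : ℕ) (x : UnitAddCircle), ∑ j ∈ range D, F (2 ^ j • x) ≤
      (M * m + 1 : ℕ) + 2 * ε * D + (∑ j ∈ range D, φ (2 ^ j • x) +
        ∑ j ∈ range D, φ (2 ^ (m + j) • x) + ∑ j ∈ range (D + m - 1), φ (2 ^ j • x)) / lam := by
    intro D x
    let e : ℕ → ℝ := fun j => if ∃ w, 1 ≤ w ∧ w ≤ m ∧
      lam * w ≤ ∑ t ∈ Ico (j + m - w) (j + m), φ (2 ^ t • x) then 1 else 0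
    have e0 : ∀ j, 0 ≤ e j := fun j => by dsimp only [e]; split_ifs <;> norm_num
    have a1 := bwd (fun t => φ (2 ^ t • x)) e (fun _ => p0 _) l1.le m
      (fun j => by dsimp only [e]; split_ifs <;> norm_num)
      (fun j => by dsimp only [e]; split_ifs with h; exacts [.inr h, .inl le_rfl]) D
    have q0 : ∀ i : ℕ, 0 ≤ φ (2 ^ i • x) / lam := fun i => div_nonneg (p0 _) l1.le
    have a2 := fwd (fun j => F (2 ^ j • x) - 2 * ε - φ (2 ^ j • x) / lam -
      φ (2 ^ (m + j) • x) / lam - e j) (M * m + 1)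
      (fun j => by linarith [F1 (2 ^ j • x), q0 j, q0 (m + j), e0 j]) (fun j => ?_) D 0
    · simp only [zero_add, sum_sub_distrib, ← sum_div, sum_const, card_range, nsmul_eq_mul] at a2
      rw [← le_div_iff₀' l1] at a1
      rw [add_div, add_div]
      linarith
    have sm : ∀ i : ℕ, 2 ^ i • 2 ^ j • x = 2 ^ (j + i) • x := fun i => by
      rw [smul_smul, ← pow_add, add_comm]
    have big : ∀ (w : ℕ) (g ψ : ℕ → ℝ), (∀ i, g i ≤ 1 - ψ i / lam) →
        lam * w < ∑ i ∈ range w, ψ i → 1 ≤ w ∧ ∑ i ∈ range w, g i ≤ 0 := fun w g ψ h d => by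
      refine ⟨Nat.pos_of_ne_zero (by rintro rfl; simp at d), (sum_le_sum fun i _ => h i).trans ?_⟩
      rw [← lt_div_iff₀' l1] at d
      simp only [sum_sub_distrib, ← sum_div, sum_const, card_range, nsmul_eq_mul]
      linarith
    by_cases d1 : ∀ w ≤ M * m + 1, ∑ i ∈ range w, φ (2 ^ i • 2 ^ j • x) ≤ lam * w
    swap
    · push Not at d1
      obtain ⟨w, w1, w2⟩ := d1
      obtain ⟨w3, w4⟩ := big w _ _ (fun i => show F (2 ^ (j + i) • x) - 2 * ε -
        φ (2 ^ (j + i) • x) / lam - φ (2 ^ (m + (j + i)) • x) / lam - e (j + i) ≤ _ by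
          rw [sm]; linarith [F1 (2 ^ (j + i) • x), q0 (m + (j + i)), e0 (j + i)]) w2
      exact ⟨w, w3, w1, w4⟩
    by_cases d2 : ∀ w ≤ M * m + 1, ∑ i ∈ range w, φ (2 ^ (m + i) • 2 ^ j • x) ≤ lam * w
    swap
    · push Not at d2
      obtain ⟨w, w1, w2⟩ := d2
      obtain ⟨w3, w4⟩ := big w _ _ (fun i => show F (2 ^ (j + i) • x) - 2 * ε -
        φ (2 ^ (j + i) • x) / lam - φ (2 ^ (m + (j + i)) • x) / lam - e (j + i) ≤ _ by
          rw [sm, add_left_comm j]; linarith [F1 (2 ^ (j + i) • x), q0 (j + i), e0 (j + i)]) w2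
      exact ⟨w, w3, w1, w4⟩
    by_cases d3 : ∀ w ≤ m, ∑ i ∈ Ico (m - w) m, φ (2 ^ i • 2 ^ j • x) ≤ lam * w
    · obtain ⟨l, a1, a2, a3⟩ := key _ d1 d2 d3
      refine ⟨l, a1, by omega, (sum_le_sum (g := fun i => F (2 ^ i • 2 ^ j • x) - 2 * ε)
        fun i _ => by rw [sm]; linarith [q0 (j + i), q0 (m + (j + i)), e0 (j + i)]).trans ?_⟩
      simp only [sum_sub_distrib, sum_const, card_range, nsmul_eq_mul]
      linarith
    · push Not at d3
      obtain ⟨w, w1, w2⟩ := d3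
      have : e j = 1 := if_pos ⟨w, Nat.pos_of_ne_zero (by rintro rfl; simp at w2), w1,
        w2.le.trans_eq (by
          simp only [sm]
          rw [show j + m - w = m - w + j by omega, add_comm j m,
            sum_Ico_add (fun t => φ (2 ^ t • x))])⟩
      refine ⟨1, le_rfl, by omega, ?_⟩
      rw [sum_range_one, add_zero, this]
      linarith [F1 (2 ^ j • x), q0 j, q0 (m + j)]
  have fin : ∀ D : ℕ, D * ∫ x, F x ∂μ ≤ (M * m + 1 : ℕ) + 2 * ε * D + (3 * D + m) * (ε / 4) := by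
    intro D
    have c1 : ∀ i : ℕ, Integrable (fun x => φ (2 ^ i • x)) μ := fun i => int μ (by fun_prop)
    have := integral_mono (μ := μ) (int μ (by fun_prop)) (int μ (by fun_prop)) (pt D)
    rw [integral_finsetSum _ fun i _ => int μ (by fun_prop), integral_add (int μ (by fun_prop))
      (int μ (by fun_prop)), integral_div, integral_add (int μ (by fun_prop))
      (int μ (by fun_prop)), integral_add (int μ (by fun_prop)) (int μ (by fun_prop)),
      integral_add (int μ (by fun_prop)) (int μ (by fun_prop)),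
      integral_finsetSum _ fun i _ => c1 _, integral_finsetSum _ fun i _ => c1 _,
      integral_finsetSum _ fun i _ => c1 _] at this
    simp only [inv_int hμ _ Fc, inv_int hμ _ φ.continuous, sum_const, card_range, nsmul_eq_mul,
      integral_const, probReal_univ, one_smul] at this
    refine this.trans (add_le_add le_rfl ?_)
    have i0 : 0 ≤ ∫ x, φ x ∂μ := integral_nonneg p0
    have i1 : ((D + m - 1 : ℕ) : ℝ) ≤ D + m := by exact_mod_cast Nat.sub_le _ _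
    rw [div_le_iff₀ l1]
    nlinarith [mul_le_mul_of_nonneg_left hφ.le (show (0 : ℝ) ≤ 3 * D + m by positivity)]
  by_contra g
  obtain ⟨D, hD⟩ := exists_nat_gt (((M * m + 1 : ℕ) + m * (ε / 4)) / (ε / 4))
  rw [div_lt_iff₀ (by positivity)] at hD
  nlinarith [fin D, mul_le_mul_of_nonneg_left (not_le.1 g).le (Nat.cast_nonneg (α := ℝ) D)]

end Pool.Agent.H.MP_4470cb_an
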