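import Pool.Agent.H.MP_4470cb_an.C

set_option autoImplicit false

namespace Pool.Agent.H.MP_4470cb_an

open Finset Real MeasureTheory Filter Topology ProbabilityTheory

theorem blocks (N s : ℕ) (x : ℕ → UnitAddCircle) : ∃ z : UnitAddCircle,
    2 ^ (N * s + (s + 1)) • z = z ∧ (∀ q : ℤ, q ≠ 0 → |q| < 2 ^ s → q • z ≠ 0) ∧
    ∀ i < s, ∀ t, dist (2 ^ (N * i + t) • z) (2 ^ t • x i) ≤ 2 ^ t / 2 ^ N := by
  have : ∀ i, ∃ y : ℝ, y ∈ Set.Ico (0 : ℝ) (0 + 1) ∧ (y : UnitAddCircle) = x i := fun i =>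
    ⟨_, (AddCircle.equivIco 1 0 (x i)).2, AddCircle.coe_equivIco⟩
  choose ξ h1 h2 using this
  have pN : (0 : ℝ) < 2 ^ N := by positivity
  have d1 : ∀ i, (⌊2 ^ N * ξ i⌋₊ : ℝ) ≤ 2 ^ N * ξ i := fun i =>
    Nat.floor_le (mul_nonneg pN.le (h1 i).1)
  have d2 : ∀ i, ⌊2 ^ N * ξ i⌋₊ < 2 ^ N := fun i => by
    have := (h1 i).2
    exact_mod_cast (d1 i).trans_lt (show _ < (2 : ℝ) ^ N by nlinarith)
  obtain ⟨B, B0, B1⟩ : ∃ B : ℕ → ℕ, B 0 = 0 ∧ ∀ i, B (i + 1) = 2 ^ N * B i + ⌊2 ^ N * ξ i⌋₊ :=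
    ⟨fun n => Nat.rec 0 (fun i b => 2 ^ N * b + ⌊2 ^ N * ξ i⌋₊) n, rfl, fun _ => rfl⟩
  have B2 : ∀ i, B i + 1 ≤ 2 ^ (N * i) := fun i => by
    induction i with
    | zero => simp [B0]
    | succ i ih =>
      have := Nat.mul_le_mul_left (2 ^ N) ih
      have := d2 i
      rw [B1, mul_add, mul_one, pow_add]
      nlinarith
  have ps : (2 : ℝ) ≤ 2 ^ (s + 1) := le_self_pow₀ one_le_two (by omega)
  have B3 : (Nat.cast (B s) : ℝ) + 1 ≤ 2 ^ (N * s) := by exact_mod_cast B2 s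
  have B4 : (0 : ℝ) ≤ B s := Nat.cast_nonneg _
  have pk : (0 : ℝ) < 2 ^ (N * s) * 2 ^ (s + 1) - 1 := by nlinarith
  obtain ⟨z, hz⟩ : ∃ z : ℝ, z * (2 ^ (N * s) * 2 ^ (s + 1) - 1) = 2 ^ (s + 1) * B s + 1 :=
    ⟨_, div_mul_cancel₀ _ pk.ne'⟩
  have z0 : 0 ≤ z := nonneg_of_mul_nonneg_left (by rw [hz]; positivity) pk
  have z1 : z ≤ 1 := le_of_mul_le_mul_right (by rw [hz]; nlinarith) pk
  have co : ∀ (n : ℕ) (b : ℤ) (y : ℝ), n • (y : UnitAddCircle) = (n * y - b : ℝ) := fun n b y => by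
    rw [AddCircle.coe_sub, (AddCircle.coe_eq_zero_iff (p := (1 : ℝ)) (x := b)).2 ⟨b, by simp⟩,
      sub_zero, ← AddCircle.coe_nsmul, nsmul_eq_mul]
  have rs : (2 ^ (N * s) * z - B s) * 2 ^ (s + 1) = z + 1 := by linarith
  have r : ∀ j i, i + j = s → 0 ≤ 2 ^ (N * i) * z - B i ∧ 2 ^ (N * i) * z - B i ≤ 1 := fun j => by
    induction j with
    | zero =>
      intro i h
      rw [show i = s from h]
      generalize 2 ^ (N * s) * z - B s = y at rs
      constructor <;> nlinarith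
    | succ j ih =>
      intro i h
      have := ih (i + 1) (by omega)
      rw [B1, mul_add, mul_one, pow_add] at this
      push_cast at this
      have d3 : (⌊2 ^ N * ξ i⌋₊ : ℝ) + 1 ≤ 2 ^ N := by exact_mod_cast d2 i
      constructor <;> nlinarith [Nat.cast_nonneg (α := ℝ) ⌊2 ^ N * ξ i⌋₊]
  refine ⟨z, ?_, fun q q0 q1 e => ?_, fun i hi t => ?_⟩
  · rw [co _ (2 ^ (s + 1) * B s + 1)]
    congr 1
    push_cast
    rw [pow_add]
    linarith
  · have : q • 2 ^ (N * s) • (z : UnitAddCircle) = 0 := by rw [smul_comm, e, smul_zero]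
    rw [co _ (B s), ← AddCircle.coe_zsmul, AddCircle.coe_eq_zero_iff] at this
    obtain ⟨n, hn⟩ := this
    simp only [zsmul_eq_mul, mul_one] at hn
    push_cast at hn
    have a1 : |(q : ℝ)| < 2 ^ s := by exact_mod_cast q1
    have a2 : (0 : ℝ) < |(q : ℝ)| := by exact_mod_cast abs_pos.2 q0
    have a3 : |(n : ℝ)| * 2 ^ (s + 1) = |(q : ℝ)| * (z + 1) := by
      rw [hn, abs_mul, mul_assoc, abs_of_nonneg (r 0 s rfl).1, rs]
    have a4 : |(n : ℝ)| < 1 := by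
      rw [pow_succ] at a3
      nlinarith [abs_nonneg (n : ℝ)]
    rw [Int.abs_lt_one_iff.1 (show |n| < 1 by exact_mod_cast a4)] at a3
    simp only [Int.cast_zero, abs_zero, zero_mul] at a3
    nlinarith
  · have := r (s - (i + 1)) (i + 1) (by omega)
    rw [B1, mul_add, mul_one, pow_add] at this
    push_cast at this
    have d3 := Nat.lt_floor_add_one (2 ^ N * ξ i)
    rw [co _ (2 ^ t * B i), ← h2, co _ 0, dist_eq_norm, ← AddCircle.coe_sub]
    refine (QuotientAddGroup.norm_mk_le_norm).trans ?_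
    rw [Real.norm_eq_abs, le_div_iff₀ pN, show ∀ y : ℝ, |y| * 2 ^ N = |y * 2 ^ N| from
      fun y => by rw [abs_mul, abs_of_pos pN]]
    push_cast
    rw [show (2 ^ (N * i + t) * z - 2 ^ t * B i - (2 ^ t * ξ i - 0) : ℝ) * 2 ^ N =
      2 ^ t * (2 ^ (N * i) * 2 ^ N * z - 2 ^ N * B i - 2 ^ N * ξ i) by ring, abs_mul,
      abs_of_pos (by positivity)]
    refine mul_le_of_le_one_right (by positivity) (abs_le.2 ⟨?_, ?_⟩) <;> linarith [d1 i]

theorem sum_mul_range (h : ℕ → ℝ) (N : ℕ) :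
    ∀ s, ∑ j ∈ range (N * s), h j = ∑ i ∈ range s, ∑ t ∈ range N, h (N * i + t)
  | 0 => by simp
  | s + 1 => by rw [mul_add, mul_one, sum_range_add, sum_mul_range h N s, sum_range_succ]

theorem est {f : UnitAddCircle → ℝ} (hf : Continuous f) {η : ℝ} (h0 : 0 < η) :
    ∀ᶠ N : ℕ in atTop, ∀ s ≥ 1, ∀ (x : ℕ → UnitAddCircle) (z : UnitAddCircle),
      (∀ i < s, ∀ t, dist (2 ^ (N * i + t) • z) (2 ^ t • x i) ≤ 2 ^ t / 2 ^ N) →
      |∑ j ∈ range (N * s + (s + 1)), f (2 ^ j • z) -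
        ∑ i ∈ range s, ∑ t ∈ range N, f (2 ^ t • x i)| ≤ η * N * s := by
  obtain ⟨K, hK⟩ := isCompact_univ.exists_bound_of_continuousOn hf.continuousOn
  have hK' : ∀ x, |f x| ≤ K := fun x => hK x trivial
  have K0 := (abs_nonneg _).trans (hK' 0)
  obtain ⟨δ, d0, d1⟩ := Metric.uniformContinuous_iff.1
    (CompactSpace.uniformContinuous_of_continuous hf) (η / 2) (by positivity)
  obtain ⟨L, hL⟩ := pow_unbounded_of_one_lt (1 / δ) (one_lt_two (α := ℝ))
  filter_upwards [eventually_ge_atTop L, tendsto_natCast_atTop_atTop.eventually_ge_atTop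
    ((2 * K * L + 2 * K) / (η / 2))] with N n1 n2 s s1 x z h
  rw [div_le_iff₀ (by positivity)] at n2
  have s2 : (1 : ℝ) ≤ s := by exact_mod_cast s1
  rw [sum_range_add, sum_mul_range, add_sub_right_comm, ← sum_sub_distrib]
  have a1 : |∑ j ∈ range (s + 1), f (2 ^ (N * s + j) • z)| ≤ (s + 1) * K :=
    (abs_sum_le_sum_abs _ _).trans ((sum_le_card_nsmul _ _ _ fun _ _ => hK' _).trans (by simp))
  have a2 : ∀ i ∈ range s, |∑ t ∈ range N, f (2 ^ (N * i + t) • z) -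
      ∑ t ∈ range N, f (2 ^ t • x i)| ≤ N * (η / 2) + L * (2 * K) := fun i hi => by
    obtain ⟨n, e⟩ := Nat.exists_eq_add_of_le' n1
    rw [← sum_sub_distrib]
    refine (abs_sum_le_sum_abs _ _).trans ?_
    rw [show range N = range (n + L) by rw [e], sum_range_add]
    refine add_le_add ((sum_le_card_nsmul _ _ (η / 2) fun t ht => (d1 ((h i (mem_range.1 hi) t).trans_lt
      ?_)).le).trans ?_) ((sum_le_card_nsmul _ _ (2 * K) fun t _ => (abs_sub _ _).trans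
      (by linarith [hK' (2 ^ (N * i + (n + t)) • z), hK' (2 ^ (n + t) • x i)])).trans (by simp))
    · rw [div_lt_iff₀ d0] at hL
      rw [div_lt_iff₀ (by positivity), e, pow_add]
      have : (2 : ℝ) ^ t ≤ 2 ^ n := pow_le_pow_right₀ one_le_two (mem_range.1 ht).le
      nlinarith [show (0 : ℝ) < 2 ^ n by positivity]
    · rw [card_range, nsmul_eq_mul, e]
      gcongr
      omega
  have a3 := (abs_sum_le_sum_abs _ _).trans (sum_le_card_nsmul _ _ _ a2)
  rw [card_range, nsmul_eq_mul] at a3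
  refine (abs_add_le _ _).trans ((add_le_add a3 a1).trans ?_)
  nlinarith [mul_le_mul_of_nonneg_left n2 (zero_le_one.trans s2)]

theorem approx (ν : Measure UnitAddCircle) [IsProbabilityMeasure ν]
    (hν : ν.map (fun x => 2 • x) = ν) {ι : Type} (F : Finset ι) (f : ι → UnitAddCircle → ℝ)
    (hf : ∀ i, Continuous (f i)) {η κ τ : ℝ} (h0 : 0 < η) (hκ : 0 < κ) (hτ : 0 < τ) (α : ℕ) :
    ∃ (k l0 : ℕ) (z : UnitAddCircle), 1 ≤ k ∧ 1 ≤ l0 ∧ 2 ^ k • z = z ∧
      (∀ q : ℤ, q ≠ 0 → |q| ≤ 2 ^ (l0 + α) → q • z ≠ 0) ∧ k * exp (-(κ * l0)) ≤ τ ∧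
      ∀ i ∈ F, |(∑ j ∈ range k, f i (2 ^ j • z)) / k - ∫ x, f i x ∂ν| ≤ 2 * η := by
  obtain ⟨N, hN⟩ := ((eventually_all_finset F).2 fun i _ =>
    est (f := fun x => f i x - ∫ x, f i x ∂ν) (by fun_prop) h0).exists
  obtain ⟨Ω, _, P, X, X1, X2, X3, _⟩ := exists_iid ℕ ν
  have sl : ∀ G : UnitAddCircle → ℝ, Continuous G → ∀ᵐ ω ∂P,
      Tendsto (fun n : ℕ => (n : ℝ)⁻¹ • ∑ i ∈ range n, G (X i ω)) atTop (𝓝 (∫ x, G x ∂ν)) :=
    fun G hG => by
      rw [← (X2 0).integral_comp hG.aestronglyMeasurable]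
      exact strong_law_ae (fun i => G ∘ X i) ((integrable_map_measure hG.aestronglyMeasurable
        (X1 0).aemeasurable).1 (by rw [(X2 0).map_eq]; exact int ν hG))
        (fun i j h => (X3.indepFun h).comp hG.measurable hG.measurable)
        fun i => ((X2 i).identDistrib (X2 0)).comp hG.measurable
  obtain ⟨ω, hω⟩ := ((eventually_all_finset F).2 fun i _ =>
    sl (fun x => ∑ t ∈ range N, (f i (2 ^ t • x) - ∫ x, f i x ∂ν)) (by fun_prop)).exists
  have t1 : Tendsto (fun l : ℕ => ((N + 1) * (α + 3) / κ) * ((κ * l) ^ 1 * exp (-(κ * l)))) atTop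
      (𝓝 _) := ((tendsto_pow_mul_exp_neg_atTop_nhds_zero 1).comp
        (tendsto_natCast_atTop_atTop.const_mul_atTop hκ)).const_mul _
  have t2 := (eventually_all_finset F).2 fun i hi => ((tendsto_add_atTop_nat (α + 1)).eventually
    ((hω i hi).abs.eventually_le_const (show _ < η by
      rw [integral_finsetSum _ fun t _ => int ν (by fun_prop), sum_eq_zero fun t _ => by
        rw [integral_sub (int ν (by fun_prop)) (int ν (by fun_prop)), inv_int hν _ (hf i)]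
        simp]
      simpa using h0)))
  obtain ⟨l, l1, l2, l3⟩ := ((eventually_ge_atTop 1).and ((t1.eventually_le_const
    (by simpa using hτ)).and t2)).exists
  obtain ⟨z, z1, z2, z3⟩ := blocks N (l + (α + 1)) fun i => X i ω
  have l4 : (1 : ℝ) ≤ l := by exact_mod_cast l1
  refine ⟨_, l, z, by omega, l1, z1, fun q q0 q1 => z2 q q0 (q1.trans_lt
    (pow_lt_pow_right₀ one_lt_two (by omega))), le_trans ?_ l2, fun i hi => ?_⟩
  · rw [← mul_assoc, pow_one, ← mul_assoc, div_mul_cancel₀ _ hκ.ne']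
    gcongr
    push_cast
    nlinarith [Nat.cast_nonneg (α := ℝ) N, Nat.cast_nonneg (α := ℝ) α,
      mul_nonneg (Nat.cast_nonneg (α := ℝ) N) (Nat.cast_nonneg (α := ℝ) α),
      mul_nonneg (mul_nonneg (Nat.cast_nonneg (α := ℝ) N) (Nat.cast_nonneg (α := ℝ) α))
        (sub_nonneg.2 l4), mul_nonneg (Nat.cast_nonneg (α := ℝ) N) (sub_nonneg.2 l4),
        mul_nonneg (Nat.cast_nonneg (α := ℝ) α) (sub_nonneg.2 l4)]
  · have a1 := hN i hi _ (by omega) _ z z3
    have a2 := l3 i hi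
    generalize l + (α + 1) = s at a1 a2 ⊢
    have a3 := abs_sub_abs_le_abs_sub
      (∑ j ∈ range (N * s + (s + 1)), (f i (2 ^ j • z) - ∫ x, f i x ∂ν))
      (∑ n ∈ range s, ∑ t ∈ range N, (f i (2 ^ t • X n ω) - ∫ x, f i x ∂ν))
    have a4 : |∑ n ∈ range s, ∑ t ∈ range N, (f i (2 ^ t • X n ω) - ∫ x, f i x ∂ν)| ≤ η * s := by
      rcases s.eq_zero_or_pos with rfl | h
      · simp
      · rwa [smul_eq_mul, abs_mul, abs_inv, Nat.abs_cast, inv_mul_le_iff₀ (by positivity),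
          mul_comm] at a2
    have p : (0 : ℝ) < (N * s + (s + 1) : ℕ) := by positivity
    rw [div_sub' p.ne', abs_div, Nat.abs_cast, div_le_iff₀ p]
    rw [sum_sub_distrib, sum_const, card_range, nsmul_eq_mul] at a1 a3
    push_cast at *
    nlinarith [mul_nonneg (Nat.cast_nonneg (α := ℝ) N) (Nat.cast_nonneg (α := ℝ) s),
      Nat.cast_nonneg (α := ℝ) s]

end Pool.Agent.H.MP_4470cb_an
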