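import Pool.Agent.H.MP_4470cb_an.D

set_option autoImplicit false

namespace Pool.Agent.H.MP_4470cb_an

open Finset Real MeasureTheory Filter Topology BoundedContinuousFunction

abbrev PP := {ν : ProbabilityMeasure UnitAddCircle //
  (ν : Measure UnitAddCircle).map (fun x : UnitAddCircle => 2 • x) = (ν : Measure UnitAddCircle)}

theorem per {k : ℕ} (hk : 1 ≤ k) {z : UnitAddCircle} (hz : 2 ^ k • z = z) : ∃ μ : PP,
    ∀ f : UnitAddCircle → ℝ, Continuous f →
      ∫ x, f x ∂(μ.1 : Measure UnitAddCircle) = (∑ j ∈ range k, f (2 ^ j • z)) / k := by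
  let μ : Measure UnitAddCircle := (k : ENNReal)⁻¹ • ∑ j ∈ range k, Measure.dirac (2 ^ j • z)
  have : IsProbabilityMeasure μ := ⟨by
    simp only [μ, Measure.smul_apply, Measure.finsetSum_apply, measure_univ, sum_const, card_range,
      nsmul_eq_mul, mul_one, smul_eq_mul]
    exact ENNReal.inv_mul_cancel (by simpa using by omega) (by simp)⟩
  have h : ∀ f : UnitAddCircle → ℝ, Continuous f →
      ∫ x, f x ∂μ = (∑ j ∈ range k, f (2 ^ j • z)) / k := fun f hf => by
    rw [integral_smul_measure, integral_finsetSum_measure fun _ _ => int _ hf]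
    simp [div_eq_inv_mul]
  refine ⟨⟨⟨μ, this⟩, show μ.map _ = μ from
    ext_of_forall_integral_eq_of_IsFiniteMeasure fun f => ?_⟩, h⟩
  rw [integral_map (by fun_prop) f.continuous.aestronglyMeasurable, h _ (by fun_prop),
    h _ f.continuous]
  have := (sum_range_succ (fun j => f (2 ^ j • z)) k).symm.trans
    (sum_range_succ' (fun j => f (2 ^ j • z)) k)
  simp only [hz, pow_zero, one_smul, add_left_inj, pow_succ', mul_smul] at this
  rw [this]

theorem step {W : Set PP} (hW : IsOpen W) (hn : W.Nonempty) {a : ℤ} (ha : a ≠ 0) {ω : ℂ}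
    (hω : ‖ω‖ = 1) {ε τ : ℝ} (h0 : 0 < ε) (h1 : ε ≤ 1) (hτ : 0 < τ) :
    ∃ V : Set PP, IsOpen V ∧ V.Nonempty ∧ V ⊆ W ∧ ∃ m0 : ℕ, ∀ m ≥ m0, ∃ B : Finset ℕ,
      (B.card : ℝ) ≤ τ * 2 ^ m ∧ ∀ c < 2 ^ m, c ∉ B → ∀ μ ∈ V,
        ∫ x, (ω * fourier (a * c) x).re ∂(μ.1 : Measure UnitAddCircle) ≤ 3 * ε := by
  classical
  obtain ⟨ν, hν⟩ := hn
  have x1 := sub_pos.2 (show exp (-(ε ^ 2 / 16)) < 1 from
    exp_lt_one_iff.2 (neg_neg_of_pos (by positivity)))
  have hα : |a| ≤ 2 ^ a.natAbs := by
    rw [Int.abs_eq_natAbs]; exact_mod_cast Nat.lt_two_pow_self.le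
  choose k l0 z k1 k2 k3 k4 k5 k6 using fun i : Finset (UnitAddCircle →ᵇ ℝ) × ℕ =>
    approx (ν.1 : Measure UnitAddCircle) ν.2 i.1 (fun f x => f x) (fun f => f.continuous)
      (η := 1 / ((i.2 : ℝ) + 1)) (κ := ε ^ 2 / 16) (τ := τ / (10 / (1 - exp (-(ε ^ 2 / 16)))))
      (by positivity) (by positivity) (by positivity) a.natAbs
  choose μ hμ using fun i => per (k1 i) (k3 i)
  have : Tendsto μ atTop (𝓝 ν) := by
    rw [tendsto_subtype_rng, ProbabilityMeasure.tendsto_iff_forall_integral_tendsto]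
    intro f
    rw [tendsto_iff_dist_tendsto_zero]
    have t : Tendsto (fun i : Finset (UnitAddCircle →ᵇ ℝ) × ℕ => 2 * (1 / ((i.2 : ℝ) + 1))) atTop
        (𝓝 (2 * 0)) := (tendsto_one_div_add_atTop_nhds_zero_nat.comp
          (by rw [← prod_atTop_atTop_eq]; exact tendsto_snd)).const_mul _
    refine squeeze_zero' (Eventually.of_forall fun _ => dist_nonneg) ?_ (by simpa using t)
    filter_upwards [eventually_ge_atTop (({f}, 0) : Finset (UnitAddCircle →ᵇ ℝ) × ℕ)] with i hi
    rw [hμ i _ f.continuous, Real.dist_eq]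
    simpa using k6 i f (hi.1 (mem_singleton_self f))
  obtain ⟨i, hi⟩ := (this.eventually (hW.mem_nhds hν)).exists
  obtain ⟨φ, p1, δ, p2, m0, p3⟩ := main ha hω h0 h1 hα (k1 i) (k2 i) (k3 i) (k4 i)
  refine ⟨W ∩ {μ | ∫ x, φ x ∂(μ.1 : Measure UnitAddCircle) < δ}, hW.inter (isOpen_lt
    ((ProbabilityMeasure.continuous_integral_continuousMap φ).comp continuous_subtype_val)
    continuous_const), ⟨μ i, hi, ?_⟩, Set.inter_subset_left, m0, fun m hm => ?_⟩
  · change _ < δ
    rw [hμ i _ φ.continuous, sum_eq_zero fun j hj => p1 j (mem_range.1 hj), zero_div]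
    exact p2
  · obtain ⟨B, B1, B2⟩ := p3 m hm
    refine ⟨B, B1.trans ?_, fun c c1 c2 μ hμ => B2 c c1 c2 _ inferInstance μ.2 hμ.2⟩
    gcongr
    exact (le_div_iff₀' (by positivity)).1 (k5 i)

theorem weyl (μ : Measure UnitAddCircle) [IsProbabilityMeasure μ] (c : ℕ → ℤ)
    (h : ∀ a : ℤ, a ≠ 0 → Tendsto (fun n => ∫ x, fourier (a * c n) x ∂μ) atTop (𝓝 0))
    (f : C(UnitAddCircle, ℝ)) :
    Tendsto (fun n => ∫ x, f (c n • x) ∂μ) atTop (𝓝 (∫ x, f x)) := by
  have : IsProbabilityMeasure (volume : Measure UnitAddCircle) := ⟨UnitAddCircle.measure_univ⟩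
  have base : ∀ g ∈ Submodule.span ℂ (Set.range (fourier (T := 1))),
      Tendsto (fun n => ∫ x, g (c n • x) ∂μ) atTop (𝓝 (∫ x, g x)) := by
    intro g hg
    induction hg using Submodule.span_induction with
    | mem g hg =>
      obtain ⟨k, rfl⟩ := hg
      have e := congrFun (fourierCoeff_fourier (T := 1) k) 0
      rw [fourierCoeff, AddCircle.integral_haarAddCircle] at e
      simp only [neg_zero, fourier_zero, one_smul, inv_one] at e
      rw [e]
      rcases eq_or_ne k 0 with rfl | hk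
      · simp
      · simpa [hk.symm, mul_smul] using h k hk
    | zero => simp
    | add f g _ _ h1 h2 =>
      simp only [ContinuousMap.add_apply]
      rw [integral_add (int _ f.continuous) (int _ g.continuous)]
      exact (h1.add h2).congr fun n => (integral_add (int _ (by fun_prop)) (int _ (by fun_prop))).symm
    | smul a f _ h1 => simpa [integral_const_mul] using h1.const_mul a
  have all : ∀ f : C(UnitAddCircle, ℂ),
      Tendsto (fun n => ∫ x, f (c n • x) ∂μ) atTop (𝓝 (∫ x, f x)) := fun f => by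
    have mem : f ∈ closure (Submodule.span ℂ (Set.range (fourier (T := 1))) : Set _) := by
      rw [← Submodule.topologicalClosure_coe, span_fourier_closure_eq_top]; trivial
    rw [Metric.tendsto_atTop]
    intro ε hε
    obtain ⟨g, hg, hd⟩ := Metric.mem_closure_iff.1 mem (ε / 3) (by positivity)
    obtain ⟨N, hN⟩ := Metric.tendsto_atTop.1 (base g hg) (ε / 3) (by positivity)
    refine ⟨N, fun n hn => ?_⟩
    have b : ∀ (ν : Measure UnitAddCircle) [IsProbabilityMeasure ν] (t : ℤ),
        dist (∫ x, f (t • x) ∂ν) (∫ x, g (t • x) ∂ν) ≤ dist f g := fun ν _ t => by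
      rw [dist_eq_norm, ← integral_sub (int _ (by fun_prop)) (int _ (by fun_prop))]
      simpa using norm_integral_le_of_norm_le_const (μ := ν) (C := dist f g)
        (f := fun x => f (t • x) - g (t • x)) (Eventually.of_forall fun x => by
          rw [← dist_eq_norm]; exact ContinuousMap.dist_apply_le_dist _)
    have b1 := b volume 1
    simp only [one_smul] at b1
    rw [dist_comm] at b1
    linarith [b μ (c n), hN n hn, dist_triangle4 (∫ x, f (c n • x) ∂μ) (∫ x, g (c n • x) ∂μ)
      (∫ x, g x) (∫ x, f x)]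
  have := all ⟨fun x => f x, by fun_prop⟩
  simp only [ContinuousMap.coe_mk, integral_complex_ofReal] at this
  simpa [Function.comp_def] using (Complex.continuous_re.tendsto _).comp this

end Pool.Agent.H.MP_4470cb_an
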